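import Mathlib
import Pool.Agent.W358.RK2.SVR
import Pool.Agent.W358.RK2.GR
import Pool.Agent.W307.RT.Tors
import Pool.Agent.Run7.h318.SH.Avg
import Pool.Agent.Run7.h318.SH.Ht

/-!
# The average of `2 ^ rank * #Ш[2]` is bounded in families with full 2-torsion

`Ш(W)` is the Tate-Shafarevich group of the elliptic curve `W` over `ℚ`, defined in
`Pool/Agent/W262/SH/Stm.lean` with continuous cocycles of the absolute Galois group of `ℚ` which are
locally trivial at all the primes and at infinity; `Ш(W)[2] = {c : Sha W // c + c = 0}`.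

1. One-parameter families. Let `F k (t) = a k * D(t) * ∏_{i < n} (α k i * t + β k i)` for
`k = 0, 1, 2`, where `D` is a product of `m` linear forms, all the `3 n + m` linear forms are pairwise
non-proportional and `F 0 - F 1 = F 2`. Then the sum over `|t| ≤ X` of `2 ^ rank * #Ш[2]` of the
elliptic curves `y² = x (x - F 0 (t)) (x - F 1 (t))` is at most `C X`. For `n = 0` these are the
quadratic twists by `D(t)` of an elliptic curve with full 2-torsion.

2. All elliptic curves over `ℚ` whose group of points contains `Z/2 x Z/4` (or `Z/2 x Z/6`), ordered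
by height: the average of `2 ^ rank * #Ш[2]` is bounded.

The proof joins the counting of helper262 and others (`Pool/Agent/W262/RK`, `Pool/Agent/W307/RT`) with
the descent on the Tate-Shafarevich group (project SH of helper262, helper files of helper841); the
local conditions are proved for all `p`-adic points.
-/

set_option autoImplicit false

namespace Pool.Agent.Results.MP_e23604_nt.BoundedAverageOrder

open Finset Filter

open scoped Classical

/-- the elements of the Tate-Shafarevich group of `W` over `ℚ` killed by two -/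
abbrev ShaTwo (W : WeierstrassCurve ℚ) : Type := {c : Pool.Agent.W262.SH.Sha W // c + c = 0}

/-- `2 ^ rank * #Ш[2]` -/
noncomputable def size (W : WeierstrassCurve ℚ) : ℕ :=
  2 ^ Module.finrank ℤ W.toAffine.Point * Nat.card (ShaTwo W)

/-- the curve `y² = x (x - A) (x - B)` over `ℚ` -/
def E (A B : ℤ) : WeierstrassCurve ℚ := ⟨0, -((A : ℚ) + B), 0, (A : ℚ) * B, 0⟩

/-- `F k (t) = a k * (∏ i, (γ i * t + δ i)) * ∏ i, (α k i * t + β k i)` -/
def F {n m : ℕ} (a : Fin 3 → ℤ) (γ δ : Fin m → ℤ) (α β : Fin 3 → Fin n → ℤ) (k : Fin 3)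
    (t : ℤ) : ℤ :=
  a k * (∏ i, (γ i * t + δ i)) * ∏ i, (α k i * t + β k i)

/-- the curve `y² = x³ + A x + B` over `ℚ` -/
def Es (A B : ℤ) : WeierstrassCurve ℚ := ⟨0, 0, 0, (A : ℚ), (B : ℚ)⟩

/-- The pairs `(A, B)` of integers such that `4 A³ + 27 B² ≠ 0`, there is no prime `p` with
`p⁴ ∣ A` and `p⁶ ∣ B`, the height `max (4 |A|³) (27 B²)` is at most `H`, and `Z/2 x Z/m` embeds in
the group of the rational points of `y² = x³ + A x + B`. (The bounds `|A|, |B| ≤ H` follow from the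
bound of the height. Every elliptic curve over `ℚ` is isomorphic to `Es A B` for exactly one pair
with the first two properties.) -/
noncomputable def Fam (m H : ℕ) : Finset (ℤ × ℤ) :=
  ((Icc (-(H : ℤ)) H) ×ˢ (Icc (-(H : ℤ)) H)).filter (fun c : ℤ × ℤ =>
    4 * c.1 ^ 3 + 27 * c.2 ^ 2 ≠ 0 ∧ 4 * |c.1| ^ 3 ≤ H ∧ 27 * c.2 ^ 2 ≤ H ∧
    (∀ p : ℕ, p.Prime → ¬ ((p : ℤ) ^ 4 ∣ c.1 ∧ (p : ℤ) ^ 6 ∣ c.2)) ∧
    ∃ f : ZMod 2 × ZMod m →+ (Es c.1 c.2).toAffine.Point, Function.Injective f)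

lemma size_E (A B : ℤ) : size (E A B) = Run7.h318.SH.RR A B := rfl

open Pool.Agent.W262.RK in
theorem half (n m : ℕ) (a : Fin 3 → ℤ) (γ δ : Fin m → ℤ) (α β : Fin 3 → Fin n → ℤ)
    (ha : ∀ k, a k ≠ 0) (hα : ∀ k i, α k i ≠ 0) (hγ : ∀ i, γ i ≠ 0)
    (h1 : ∀ k i l j, (k, i) ≠ (l, j) → α k i * β l j ≠ α l j * β k i)
    (h2 : ∀ i j, i ≠ j → γ i * δ j ≠ γ j * δ i)
    (h3 : ∀ k i j, α k i * δ j ≠ γ j * β k i)
    (hF : ∀ t : ℤ, F a γ δ α β 0 t - F a γ δ α β 1 t = F a γ δ α β 2 t) :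
    ∃ C : ℝ, 0 ≤ C ∧ ∀ X : ℕ, ∑ t ∈ Icc 1 X,
      (size (E (F a γ δ α β 0 (t : ℤ)) (F a γ δ α β 1 (t : ℤ))) : ℝ) ≤ C * X := by
  set cls : (Fin 3 × Fin n) ⊕ Fin m → Fin 4 := Sum.elim (fun j => j.1.castSucc) (fun _ => 3)
    with hcls
  set A : (Fin 3 × Fin n) ⊕ Fin m → ℤ := Sum.elim (fun j => α j.1 j.2) γ with hA
  set B : (Fin 3 × Fin n) ⊕ Fin m → ℤ := Sum.elim (fun j => β j.1 j.2) δ with hB
  have hcs : ∀ (k : Fin 3), k.castSucc ≠ (3 : Fin 4) := by decide
  have hfs : ∀ k : Fin 3, fs cls k =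
      (univ.image (fun i : Fin n => (Sum.inl (k, i) : (Fin 3 × Fin n) ⊕ Fin m))) ∪
      (univ.image (fun i : Fin m => (Sum.inr i : (Fin 3 × Fin n) ⊕ Fin m))) := by
    intro k
    ext j
    unfold fs
    rw [mem_filter, mem_union, mem_image, mem_image]
    rcases j with ⟨l, i⟩ | i
    · simp only [hcls, Sum.elim_inl, mem_univ, true_and, hcs, or_false, reduceCtorEq,
        exists_false, Sum.inl.injEq, Prod.mk.injEq]
      constructor
      · intro h
        exact ⟨i, (Fin.castSucc_injective _ h).symm, rfl⟩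
      · rintro ⟨i', h, _⟩
        rw [h]
    · simp only [hcls, Sum.elim_inr, mem_univ, true_and, or_true, reduceCtorEq, exists_false,
        Sum.inr.injEq, exists_eq, false_or]
  have hFF : ∀ (t : ℤ) (k : Fin 3), F4 cls a A B t k = F a γ δ α β k t := by
    intro t k
    unfold F4 F
    rw [hfs, prod_union, prod_image (fun i _ j _ hij => by simpa using hij),
      prod_image (fun i _ j _ hij => by simpa using hij)]
    · simp only [ff, hA, hB, Sum.elim_inl, Sum.elim_inr]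
      ring
    · rw [disjoint_left]
      intro j hj hj'
      rw [mem_image] at hj hj'
      obtain ⟨_, _, rfl⟩ := hj
      obtain ⟨_, _, h⟩ := hj'
      exact absurd h (by simp)
  have hcard : ∀ k : Fin 4, k ≠ 3 → (univ.filter (fun j => cls j = k)).card = n := by
    intro k hk
    have hk' : ∃ k' : Fin 3, k = k'.castSucc := by
      revert k
      decide
    obtain ⟨k', rfl⟩ := hk'
    have h : univ.filter (fun j => cls j = k'.castSucc) =
        univ.image (fun i : Fin n => (Sum.inl (k', i) : (Fin 3 × Fin n) ⊕ Fin m)) := by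
      ext j
      rw [mem_filter, mem_image]
      rcases j with ⟨l, i⟩ | i
      · simp only [hcls, Sum.elim_inl, mem_univ, true_and, Sum.inl.injEq, Prod.mk.injEq]
        constructor
        · intro h
          exact ⟨i, (Fin.castSucc_injective _ h).symm, rfl⟩
        · rintro ⟨i', h, _⟩
          rw [h]
      · simp only [hcls, Sum.elim_inr, mem_univ, true_and, reduceCtorEq, exists_false, iff_false]
        exact fun h => hcs k' h.symm
    rw [h, card_image_of_injective _ (fun i j hij => by simpa using hij)]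
    simp
  obtain ⟨C, hC0, hC⟩ := Run7.h318.SH.avg5_full Pool.Agent.W358.RK2.svr Pool.Agent.W358.RK2.gr
    cls n hcard a A B ha
    (by
      rintro (j | j)
      · exact hα _ _
      · exact hγ _)
    (by
      rintro (⟨k, i⟩ | i) (⟨l, j⟩ | j) hne
      · exact sub_ne_zero.2 (h1 k i l j (by simpa using hne))
      · exact sub_ne_zero.2 (h3 k i j)
      · exact sub_ne_zero.2 (fun h => h3 l j i h.symm)
      · exact sub_ne_zero.2 (h2 i j (by simpa using hne)))
    (fun t => by rw [hFF, hFF, hFF]; exact hF t)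
  refine ⟨C, hC0, fun X => ?_⟩
  have h := hC X
  have e : ∀ t : ℕ, (size (E (F a γ δ α β 0 (t : ℤ)) (F a γ δ α β 1 (t : ℤ))) : ℝ) =
      (Run7.h318.SH.RR (F4 cls a A B (t : ℤ) 0) (F4 cls a A B (t : ℤ) 1) : ℝ) := by
    intro t
    rw [hFF, hFF]
    rfl
  rw [sum_congr rfl (fun t _ => e t)]
  exact h

/-- one-parameter families -/
theorem families (n m : ℕ) (a : Fin 3 → ℤ) (γ δ : Fin m → ℤ) (α β : Fin 3 → Fin n → ℤ)
    (ha : ∀ k, a k ≠ 0) (hα : ∀ k i, α k i ≠ 0) (hγ : ∀ i, γ i ≠ 0)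
    (h1 : ∀ k i l j, (k, i) ≠ (l, j) → α k i * β l j ≠ α l j * β k i)
    (h2 : ∀ i j, i ≠ j → γ i * δ j ≠ γ j * δ i)
    (h3 : ∀ k i j, α k i * δ j ≠ γ j * β k i)
    (hF : ∀ t : ℤ, F a γ δ α β 0 t - F a γ δ α β 1 t = F a γ δ α β 2 t) :
    ∃ C : ℝ, ∀ X : ℕ, 1 ≤ X → ∑ t ∈ Icc (-(X : ℤ)) X,
        (size (E (F a γ δ α β 0 t) (F a γ δ α β 1 t)) : ℝ) ≤ C * X := by
  obtain ⟨C1, hC10, hC1⟩ := half n m a γ δ α β ha hα hγ h1 h2 h3 hF
  have hneg : ∀ (k : Fin 3) (t : ℤ), F a (fun i => -γ i) δ (fun k i => -α k i) β k t =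
      F a γ δ α β k (-t) := by
    intro k t
    unfold F
    congr 1
    · congr 1
      refine prod_congr rfl fun i _ => ?_
      ring
    · refine prod_congr rfl fun i _ => ?_
      ring
  obtain ⟨C2, hC20, hC2⟩ := half n m a (fun i => -γ i) δ (fun k i => -α k i) β ha
    (fun k i => neg_ne_zero.2 (hα k i)) (fun i => neg_ne_zero.2 (hγ i))
    (fun k i l j h => by
      intro h3
      apply h1 k i l j h
      linarith)
    (fun i j h => by
      intro h3
      apply h2 i j h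
      linarith)
    (fun k i j => by
      intro h4
      apply h3 k i j
      linarith) (fun t => by rw [hneg, hneg, hneg]; exact hF (-t))
  set P : ℤ → ℝ := fun t => (size (E (F a γ δ α β 0 t) (F a γ δ α β 1 t)) : ℝ) with hP
  have hP0 : ∀ t, 0 ≤ P t := fun t => Nat.cast_nonneg _
  refine ⟨C1 + C2 + P 0, fun X hX => ?_⟩
  have hXr : (1 : ℝ) ≤ X := by exact_mod_cast hX
  have e1 : ∑ t ∈ Icc 1 X, P (t : ℤ) ≤ C1 * X := hC1 X
  have e2 : ∑ t ∈ Icc 1 X, P (-(t : ℤ)) ≤ C2 * X := by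
    have h := hC2 X
    have e : ∀ t : ℕ, (size (E (F a (fun i => -γ i) δ (fun k i => -α k i) β 0 (t : ℤ))
          (F a (fun i => -γ i) δ (fun k i => -α k i) β 1 (t : ℤ))) : ℝ) =
        P (-(t : ℤ)) := by
      intro t
      rw [hneg, hneg]
    rw [sum_congr rfl (fun t _ => e t)] at h
    exact h
  have hsub : Icc (-(X : ℤ)) X ⊆ ((Icc 1 X).image (fun t : ℕ => (t : ℤ)) ∪
      (Icc 1 X).image (fun t : ℕ => -(t : ℤ))) ∪ {0} := by
    intro t ht
    rw [mem_Icc] at ht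
    rw [mem_union, mem_union, mem_image, mem_image, mem_singleton]
    rcases lt_trichotomy t 0 with h | h | h
    · left; right
      exact ⟨t.natAbs, mem_Icc.2 (by omega), by omega⟩
    · right; exact h
    · left; left
      exact ⟨t.natAbs, mem_Icc.2 (by omega), by omega⟩
  have hun : ∀ S T : Finset ℤ, ∑ t ∈ S ∪ T, P t ≤ ∑ t ∈ S, P t + ∑ t ∈ T, P t := by
    intro S T
    rw [← sum_union_inter]
    exact le_add_of_nonneg_right (sum_nonneg fun t _ => hP0 t)
  have e3 : ∑ t ∈ (Icc 1 X).image (fun t : ℕ => (t : ℤ)), P t = ∑ t ∈ Icc 1 X, P (t : ℤ) :=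
    sum_image (fun i _ j _ hij => by exact_mod_cast hij)
  have e4 : ∑ t ∈ (Icc 1 X).image (fun t : ℕ => -(t : ℤ)), P t = ∑ t ∈ Icc 1 X, P (-(t : ℤ)) :=
    sum_image (fun i _ j _ hij => by simpa using hij)
  show ∑ t ∈ Icc (-(X : ℤ)) X, P t ≤ (C1 + C2 + P 0) * X
  have h5 := (sum_le_sum_of_subset_of_nonneg hsub (fun t _ _ => hP0 t)).trans
    ((hun _ _).trans (add_le_add (hun _ _) le_rfl))
  rw [e3, e4, sum_singleton] at h5
  have h6 : P 0 ≤ P 0 * X := le_mul_of_one_le_right (hP0 0) hXr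
  linarith

lemma Fam_eq (m H : ℕ) : Fam m H = Pool.Agent.W307.RT.Cv m H := by
  unfold Fam Pool.Agent.W307.RT.Cv
  apply filter_congr
  intro c _
  have h : Pool.Agent.W307.RT.HasT m (Pool.Agent.W307.RT.Sh c.1 c.2) ↔
      ∃ f : ZMod 2 × ZMod m →+ (Es c.1 c.2).toAffine.Point, Function.Injective f :=
    Pool.Agent.W307.RT.tors_iff
  rw [h]

/-- **Theorem.** In the following families of elliptic curves over `ℚ` the group `Ш[2]` is finite and
the average of `2 ^ rank * #Ш[2]` is bounded: (1) the one-parameter families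
`y² = x (x - F 0 (t)) (x - F 1 (t))`, `|t| ≤ X`; (2) all the elliptic curves over `ℚ` with a subgroup
`Z/2 x Z/4`, or with a subgroup `Z/2 x Z/6`, ordered by height. -/
theorem result :
    (∀ (n m : ℕ) (a : Fin 3 → ℤ) (γ δ : Fin m → ℤ) (α β : Fin 3 → Fin n → ℤ),
      (∀ k, a k ≠ 0) → (∀ k i, α k i ≠ 0) → (∀ i, γ i ≠ 0) →
      (∀ k i l j, (k, i) ≠ (l, j) → α k i * β l j ≠ α l j * β k i) →
      (∀ i j, i ≠ j → γ i * δ j ≠ γ j * δ i) →
      (∀ k i j, α k i * δ j ≠ γ j * β k i) →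
      (∀ t : ℤ, F a γ δ α β 0 t - F a γ δ α β 1 t = F a γ δ α β 2 t) →
      (∀ t : ℤ, (E (F a γ δ α β 0 t) (F a γ δ α β 1 t)).Δ ≠ 0 →
        Finite (ShaTwo (E (F a γ δ α β 0 t) (F a γ δ α β 1 t)))) ∧
      ∃ C : ℝ, ∀ X : ℕ, 1 ≤ X → ∑ t ∈ (Icc (-(X : ℤ)) X).filter
          (fun t => (E (F a γ δ α β 0 t) (F a γ δ α β 1 t)).Δ ≠ 0),
        (size (E (F a γ δ α β 0 t) (F a γ δ α β 1 t)) : ℝ) ≤ C * X) ∧
    (∀ m : ℕ, m = 4 ∨ m = 6 → Tendsto (fun H : ℕ => (Fam m H).card) atTop atTop ∧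
      (∀ H : ℕ, ∀ c ∈ Fam m H, Finite (ShaTwo (Es c.1 c.2))) ∧
      ∃ C : ℝ, ∀ H : ℕ, ∑ c ∈ Fam m H, (size (Es c.1 c.2) : ℝ) ≤ C * (Fam m H).card) := by
  refine ⟨fun n m a γ δ α β ha hα hγ h1 h2 h3 hF => ⟨fun t ht => ?_, ?_⟩, fun m hm => ?_⟩
  · set A := F a γ δ α β 0 t
    set B := F a γ δ α β 1 t
    have e : (E A B).Δ = 16 * ((A : ℚ) * B * (A - B)) ^ 2 := by
      simp only [WeierstrassCurve.Δ, WeierstrassCurve.b₂, WeierstrassCurve.b₄,
        WeierstrassCurve.b₆, WeierstrassCurve.b₈, E]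
      ring
    rw [e] at ht
    have h4 : (A : ℚ) * B * (A - B) ≠ 0 := by
      intro h
      rw [h] at ht
      exact ht (by norm_num)
    have hA : A ≠ 0 := by
      rintro h
      rw [h] at h4
      exact h4 (by push_cast; ring)
    have hB : B ≠ 0 := by
      rintro h
      rw [h] at h4
      exact h4 (by push_cast; ring)
    have hAB : A ≠ B := by
      rintro h
      rw [h] at h4
      exact h4 (by ring)
    exact Run7.h318.SH.fin_EAB hA hB hAB
  · obtain ⟨C, hC⟩ := families n m a γ δ α β ha hα hγ h1 h2 h3 hF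
    exact ⟨C, fun X hX => (sum_le_sum_of_subset_of_nonneg (filter_subset _ _)
      (fun t _ _ => Nat.cast_nonneg _)).trans (hC X hX)⟩
  · simp only [Fam_eq]
    rcases hm with rfl | rfl
    · refine ⟨Pool.Agent.W307.RT.tendsto_of_low Pool.Agent.W29.RT.low4, fun H c hc => ?_,
        Run7.h318.SH.main4q⟩
      obtain ⟨C, F, hF⟩ := Run7.h318.SH.par4q
      exact ((hF H).2 c hc).2.2.2.2.2.2.1
    · refine ⟨Pool.Agent.W307.RT.tendsto_of_low Pool.Agent.W376.RTL.low6, fun H c hc => ?_,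
        Run7.h318.SH.main6q⟩
      obtain ⟨C, F, hF⟩ := Run7.h318.SH.par6q
      exact ((hF H).2 c hc).2.2.2.2.2.2.1

end Pool.Agent.Results.MP_e23604_nt.BoundedAverageOrder
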