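import Mathlib
import Pool.Agent.Run7.h289.D18.Fn
import Pool.Agent.Run7.h289.D18.Jw
import Pool.Agent.Run7.h289.MO.Av
import Pool.Agent.N916.GB.Num

/-!
# The curves with full rational 2-torsion and a cyclic 4-isogeny: Selmer groups, rank and Sha

The curves are `y² = x (x + α) (x + β)` over `ℚ` with `α β` a square (the point `(0, 0)` is twice a
point of a cyclic subgroup of order four stable under the Galois group). They are excluded in the
theorem of Smith on the 2-power Selmer groups of the quadratic twists of the curves with full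
rational 2-torsion.

A pair is `(u, v)`, coprime nonzero integers with `u² ≠ v²`, and
`E_{u,v}^D : y² = x (x + u² D) (x + v² D) = x³ + a x² + b x` for a squarefree integer `D ≠ 0`.

1. These are all the curves.
2. The j-invariants, as fractions in lowest terms up to powers of two.
3. The squarefree integer `D` is admissible for `(u, v)` if `|D| = 3` modulo `4`, `D` is not a square
   modulo the odd primes of `u v`, `-D` is not a square modulo the odd primes of `u² - v²`, and a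
   condition modulo `32` holds. Then the Selmer groups of the isogeny `E_{u,v}^D → E'` of degree two
   with kernel `{O, (0, 0)}` and of its dual are the two explicit sets `A |D|` and `B |D|`, the same
   for all pairs `(u, v)`; both have order `2^(k+1)` for some `k`, and
   `2^rank * #Ш(E_{u,v}^D)[2] ≤ 4^k`; the curve has finitely many rational points and `Ш[2^∞] = 0`
   if and only if `k = 0`.
4. The joint law. Let `a 0, ..., a (M-1)` be different multipliers: squarefree, `1` modulo `4` and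
   positive; let `F i` be a nonempty finite set of pairs with signs `t = (u, v, w)` such that `a i` is
   prime to the odd primes of `u v (u² - v²)`. The curves are `E_{u,v}^D` with `D = w * part (a i) m`,
   where `part a m` is the squarefree part of `a m`: the twists by `m` of the twist of
   `E_{u,v}` by `w (a i)`. Consider the squarefree numbers `m > 0` for which all these `D` are
   admissible, also those in a class `b` modulo `N` prime to `N`, provided that there is one. They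
   have positive lower density. For each of them there is a vector `k` in `ℕ^M` such that all the
   Selmer groups of all the curves of `F i` have order `2^(k i + 1)`: the coranks are equal for equal
   multipliers. They are independent for different multipliers: for EVERY set `A` of vectors exactly
   the proportion `∑_{k ∈ A} ∏ i, g (k i)` of the `m` has its vector in `A`, where
   `g k = η / (2^(k²) ∏_{i ≤ k} (1 - 2^(-i))²)`, `η = ∏ (1 - 2^(-i)) = 0.2888...`, `∑ g k = 1`. For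
   every set `S` of indices exactly the proportion `η^(#S) (1 - η)^(M - #S)` has the property: the
   curves of `F i` have finitely many rational points and `Ш[2^∞] = 0` for `i` in `S`, and none of
   them has this for the other `i`.
   All the moments converge: for one curve `t i` of each `F i` and all exponents `e i` the average of
   `∏ i, #Sel₁^(e i)` (and of `∏ i, #Sel₂^(e i)`) over the class tends to `∏ i, 2^(e i) G (e i)`, where
   `G r` is the number of the subspaces of `F_2^r` (Galois numbers), `G 0 = 1`, `G 1 = 2`,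
   `G (r + 2) = 2 G (r + 1) + (2^(r+1) - 1) G r`: the average order of the Selmer groups is exactly `4`;
   the upper limit of the average of `∏ i, (2^rank * #Ш[2])^(e i)` is at most `∏ i, G (2 e i)`, so for
   one curve the average of `2^rank * #Ш[2]` is at most `5` in the limit.
5. Existence: each pair with the sign `+` (`u v` odd) or `-` (`u v` even) has admissible numbers,
   and the same number is admissible for the first `n` pairs of the sequence `(u^(2^i), v^(2^i))`; for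
   any two members of the sequence an odd prime divides the denominator of the one j-invariant but
   not that of the other. Multipliers: if `a` is squarefree, `1` modulo `8` and a nonzero square
   modulo the odd primes of `u v (u² - v²)`, then `w * part a m` is admissible if and only if `w * m`
   is; the primes `1` modulo `8 u v (u² - v²)` are such `a`.
-/

set_option autoImplicit false

open Filter Topology

namespace Pool.Agent.Results.MP_e23604_nt.FullTorsionLaw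

/-- the curve `y² = x (x + α) (x + β)` over `ℚ` -/
def C (α β : ℚ) : WeierstrassCurve ℚ := { a₁ := 0, a₂ := α + β, a₃ := 0, a₄ := α * β, a₆ := 0 }

/-- `E_{u,v}^D` -/
def E (u v D : ℤ) : WeierstrassCurve ℚ := C ((u : ℚ) ^ 2 * D) ((v : ℚ) ^ 2 * D)

/-- the pairs `(u, v)` -/
structure Pair (u v : ℤ) : Prop where
  coprime : IsCoprime u v
  left : u ≠ 0
  right : v ≠ 0
  ne : u ^ 2 ≠ v ^ 2

/-- `D` is admissible for `(u, v)` -/
structure Admissible (u v D : ℤ) : Prop where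
  squarefree : Squarefree D
  three : D.natAbs % 4 = 3
  atUV : ∀ p : ℕ, p.Prime → p ≠ 2 → (p : ℤ) ∣ u * v → ¬ IsSquare (D : ZMod p)
  atDiff : ∀ p : ℕ, p.Prime → p ≠ 2 → (p : ℤ) ∣ u ^ 2 - v ^ 2 → ¬ IsSquare (-(D : ZMod p))
  atTwoPos : 0 < D →
    (u * v % 2 = 1 ∧ (D % 8 = 3 ∨ (u ^ 2 - v ^ 2) % 32 = 16)) ∨ u * v % 4 = 2
  atTwoNeg : D < 0 → (u * v % 2 = 1 ∧ (u ^ 2 - v ^ 2) % 16 = 8) ∨
    (u * v % 2 = 0 ∧ (D.natAbs % 8 = 3 ∨ u * v % 8 = 4))

/-- `N² = d M⁴ + a M² e² + (b / d) e⁴` has a solution in `L` with `(M, e) ≠ (0, 0)` -/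
def HasPoint (L : Type) [Field L] (a b d : ℤ) : Prop := ∃ N M e : L, (M ≠ 0 ∨ e ≠ 0) ∧
  N ^ 2 = (d : L) * M ^ 4 + (a : L) * M ^ 2 * e ^ 2 + (b : L) / (d : L) * e ^ 4

/-- the Selmer group of the isogeny of degree two onto the curve `y² = x³ + a x² + b x` with the
kernel of order two of its dual `{O, (0, 0)}`, as a set of squarefree integers: the `d` for which the
torsor has points over all `ℚ_p` and over `ℝ` -/
def Sel (a b : ℤ) : Set ℤ := {d | Squarefree d ∧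
  (∀ (p : ℕ) [Fact p.Prime], HasPoint ℚ_[p] a b d) ∧ HasPoint ℝ a b d}

/-- `d` is a square modulo the primes of `e`, and `e` modulo the primes of `d` -/
def Squares (d e : ℤ) : Prop :=
  (∀ p : ℕ, p.Prime → (p : ℤ) ∣ d → IsSquare (e : ZMod p)) ∧
    ∀ p : ℕ, p.Prime → (p : ℤ) ∣ e → IsSquare (d : ZMod p)

/-- the first explicit set -/
def A (m : ℕ) : Set ℤ := {d | d % 4 = 1 ∧ ∃ e : ℤ, d * e = -m ∧ Squares d e}

/-- the second explicit set -/
def B (m : ℕ) : Set ℤ := {d | 0 < d ∧ ∃ e : ℤ, d * e = m ∧ Squares d e}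

/-- `W(ℚ)` is finite and `Ш(W/ℚ)[2^∞] = 0` -/
structure Trivial (W : WeierstrassCurve ℚ) : Prop where
  finite : Finite W.toAffine.Point
  sha : ∀ (n : ℕ) (x : Pool.Agent.TH841.NF.D.Sha W), 2 ^ n • x = 0 → x = 0

/-- `Ш(W/ℚ)[2]` -/
abbrev ShaTwo (W : WeierstrassCurve ℚ) : Type := {x : Pool.Agent.TH841.NF.D.Sha W // 2 • x = 0}

/-- the coefficient `a` of `E_{u,v}^D` -/
def ca (u v D : ℤ) : ℤ := (u ^ 2 + v ^ 2) * D

/-- the coefficient `b` of `E_{u,v}^D` -/
def cb (u v D : ℤ) : ℤ := u ^ 2 * v ^ 2 * D ^ 2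

/-- the Selmer group of the isogeny `E' → E_{u,v}^D` -/
def Sel₁ (u v D : ℤ) : Set ℤ := Sel (ca u v D) (cb u v D)

/-- the Selmer group of the isogeny `E_{u,v}^D → E'`, `E' : y² = x³ - 2 a x² + (a² - 4 b) x` -/
def Sel₂ (u v D : ℤ) : Set ℤ := Sel (-2 * ca u v D) (ca u v D ^ 2 - 4 * cb u v D)

/-- the triples `t = (u, v, w)`: a pair `(u, v)` and a sign `w = ± 1` -/
structure Signed (t : ℤ × ℤ × ℤ) : Prop where
  pair : Pair t.1 t.2.1
  sign : t.2.2 = 1 ∨ t.2.2 = -1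

/-- the squarefree part of `a m`, for squarefree `a`, `m` -/
def part (a m : ℕ) : ℕ := a * m / Nat.gcd a m ^ 2

/-- the curve of `t` for the multiplier `a` and the number `m` -/
def twist (t : ℤ × ℤ × ℤ) (a m : ℕ) : WeierstrassCurve ℚ := E t.1 t.2.1 (t.2.2 * part a m)

/-- the multipliers and the sets of pairs with signs -/
structure Data {M : ℕ} (a : Fin M → ℕ) (F : Fin M → Finset (ℤ × ℤ × ℤ)) : Prop where
  pos : 0 < M
  different : Function.Injective a
  squarefree : ∀ i, Squarefree (a i)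
  one : ∀ i, a i % 4 = 1
  nonempty : ∀ i, (F i).Nonempty
  signed : ∀ i, ∀ t ∈ F i, Signed t
  prime : ∀ i, ∀ t ∈ F i, ∀ p : ℕ, p.Prime → p ≠ 2 →
    (p : ℤ) ∣ t.1 * t.2.1 * (t.1 ^ 2 - t.2.1 ^ 2) → ¬ p ∣ a i

/-- all the numbers are admissible -/
def Common {M : ℕ} (a : Fin M → ℕ) (F : Fin M → Finset (ℤ × ℤ × ℤ)) (m : ℕ) : Prop :=
  Squarefree m ∧ ∀ i, ∀ t ∈ F i, Admissible t.1 t.2.1 (t.2.2 * part (a i) m)

/-- all the Selmer groups of the curves of `F i` have order `2^(k i + 1)` -/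
def Coranks {M : ℕ} (a : Fin M → ℕ) (F : Fin M → Finset (ℤ × ℤ × ℤ)) (k : Fin M → ℕ) (m : ℕ) :
    Prop := ∀ i, ∀ t ∈ F i,
  Nat.card (Sel₁ t.1 t.2.1 (t.2.2 * part (a i) m)) = 2 ^ (k i + 1) ∧
    Nat.card (Sel₂ t.1 t.2.1 (t.2.2 * part (a i) m)) = 2 ^ (k i + 1)

/-- the number of the `m ≤ X` of the class `K` with the property `Q` -/
noncomputable def num (K Q : ℕ → Prop) (X : ℕ) : ℕ := Nat.card {m : ℕ // m ≤ X ∧ K m ∧ Q m}

/-- among the numbers of the class `K` exactly the proportion `θ` has the property `Q` -/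
def Proportion (K Q : ℕ → Prop) (θ : ℝ) : Prop :=
  Tendsto (fun X : ℕ => (num K Q X : ℝ) / (num K (fun _ => True) X : ℝ)) atTop (𝓝 θ)

open scoped Classical in
/-- the average of `f` over the numbers `m ≤ X` of the class `K` -/
noncomputable def average (K : ℕ → Prop) (f : ℕ → ℝ) (X : ℕ) : ℝ :=
  (∑ m ∈ (Finset.range (X + 1)).filter K, f m) / (((Finset.range (X + 1)).filter K).card : ℝ)

/-- the Galois numbers: the number of the subspaces of `F_2^r` -/
def G : ℕ → ℕ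
  | 0 => 1
  | 1 => 2
  | (r + 2) => 2 * G (r + 1) + (2 ^ (r + 1) - 1) * G r

/-- the constant `0.2888...` -/
noncomputable def η : ℝ := ∏' i : ℕ, (1 - (1 / 2 : ℝ) ^ (i + 1))

/-- the constants of the law -/
noncomputable def g (k : ℕ) : ℝ :=
  η / (2 ^ (k ^ 2) * (∏ i ∈ Finset.range k, (1 - (1 / 2 : ℝ) ^ (i + 1))) ^ 2)

section proof

open Pool.Agent.Run7.h289.D18

theorem pair_iff {u v : ℤ} : Pair u v ↔ Pr u v :=
  ⟨fun h => ⟨h.1, h.2, h.3, h.4⟩, fun h => ⟨h.1, h.2, h.3, h.4⟩⟩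

theorem adm_iff {u v D : ℤ} : Admissible u v D ↔ Ad u v D :=
  ⟨fun h => ⟨h.1, h.2, h.3, h.4, h.5, h.6⟩, fun h => ⟨h.1, h.2, h.3, h.4, h.5, h.6⟩⟩

theorem E_eq (u v D : ℤ) : E u v D = Ec u v D := by
  unfold E C Ec
  push_cast
  congr 1 <;> ring

theorem trivial_iff (W : WeierstrassCurve ℚ) : Trivial W ↔
    (Finite W.toAffine.Point ∧ ∀ (k : ℕ) (x : Pool.Agent.TH841.NF.D.Sha W), 2 ^ k • x = 0 → x = 0) :=
  ⟨fun h => ⟨h.1, h.2⟩, fun h => ⟨h.1, h.2⟩⟩

theorem signed_iff {t : ℤ × ℤ × ℤ} : Signed t ↔ Tri t :=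
  ⟨fun h => ⟨pair_iff.1 h.1, h.2⟩, fun h => ⟨pair_iff.2 h.1, h.2⟩⟩

theorem part_eq (a m : ℕ) : part a m = Pool.Agent.Run7.h238.J.tw a m := rfl

section

variable {M : ℕ} {a : Fin M → ℕ} {F : Fin M → Finset (ℤ × ℤ × ℤ)} {N b : ℕ}

theorem common_iff {m : ℕ} : Common a F m ↔ CmJ a F m :=
  and_congr_right fun _ => forall_congr' fun _ => forall_congr' fun _ => forall_congr' fun _ =>
    adm_iff

theorem Data.hyp (h : Data a F) : Hyp a F where
  inj := h.different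
  sqf := h.squarefree
  one := h.one
  tri := fun i t ht => signed_iff.1 (h.signed i t ht)
  ne := h.nonempty
  gm := h.prime
  pos := h.pos

end

theorem g_eq (k : ℕ) : g k = Run7.h843.L.gk k := by
  rw [Run7.h843.L.gk_eq]
  rfl

theorem core {u v D : ℤ} (h : Pair u v) (hD : Admissible u v D) : ∃ k : ℕ,
    Nf D.natAbs = 2 ^ (k + 1) ∧ Nat.card (Sel₁ u v D) = 2 ^ (k + 1) ∧
    Nat.card (Sel₂ u v D) = 2 ^ (k + 1) ∧ Finite (ShaTwo (E u v D)) ∧
    2 ^ Module.finrank ℤ (E u v D).toAffine.Point * Nat.card (ShaTwo (E u v D)) ≤ 4 ^ k ∧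
    (Trivial (E u v D) ↔ k = 0) := by
  rw [E_eq, trivial_iff]
  exact corank (pair_iff.1 h) (adm_iff.1 hD)

theorem sel_iff {u v D : ℤ} (h : Pair u v) (hD : Admissible u v D) (k : ℕ) :
    (Nat.card (Sel₁ u v D) = 2 ^ (k + 1) ∧ Nat.card (Sel₂ u v D) = 2 ^ (k + 1)) ↔
      Nf D.natAbs = 2 ^ (k + 1) := by
  obtain ⟨j, h1, h2, h3, -⟩ := core h hD
  rw [h1, h2, h3, and_self]

theorem natAbs_sign {t : ℤ × ℤ × ℤ} (h : Signed t) (m : ℕ) : (t.2.2 * (m : ℤ)).natAbs = m := by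
  rcases h.sign with e | e
  · rw [e, one_mul, Int.natAbs_natCast]
  · rw [e, neg_one_mul, Int.natAbs_neg, Int.natAbs_natCast]

section

variable {M : ℕ} {a : Fin M → ℕ} {F : Fin M → Finset (ℤ × ℤ × ℤ)} {N b : ℕ}

theorem coranks_iff (h : Data a F) {m : ℕ} (hm : Common a F m) (k : Fin M → ℕ) :
    Coranks a F k m ↔ ∀ i, Nf (Pool.Agent.Run7.h238.J.tw (a i) m) = 2 ^ (k i + 1) := by
  have key : ∀ i, ∀ t ∈ F i,
      ((Nat.card (Sel₁ t.1 t.2.1 (t.2.2 * part (a i) m)) = 2 ^ (k i + 1) ∧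
        Nat.card (Sel₂ t.1 t.2.1 (t.2.2 * part (a i) m)) = 2 ^ (k i + 1)) ↔
      Nf (Pool.Agent.Run7.h238.J.tw (a i) m) = 2 ^ (k i + 1)) := by
    intro i t ht
    have := sel_iff (h.signed i t ht).pair (hm.2 i t ht) (k i)
    rwa [natAbs_sign (h.signed i t ht)] at this
  constructor
  · intro h1 i
    obtain ⟨t, ht⟩ := h.nonempty i
    exact (key i t ht).1 (h1 i t ht)
  · intro h1 i t ht
    exact (key i t ht).2 (h1 i)

theorem exists_coranks (h : Data a F) {m : ℕ} (hm : Common a F m) :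
    ∃ k : Fin M → ℕ, Coranks a F k m := by
  have h1 : ∀ i, ∃ k : ℕ, Nf (Pool.Agent.Run7.h238.J.tw (a i) m) = 2 ^ (k + 1) := by
    intro i
    obtain ⟨t, ht⟩ := h.nonempty i
    obtain ⟨k, h2, -⟩ := core (h.signed i t ht).pair (hm.2 i t ht)
    rw [natAbs_sign (h.signed i t ht)] at h2
    exact ⟨k, h2⟩
  choose k hk using h1
  exact ⟨k, (coranks_iff h hm k).2 hk⟩

theorem law_sel (h : Data a F) (hN : 0 < N) (hbc : b.Coprime N)
    (hex : ∃ m, Common a F m ∧ m % N = b) (A : Set (Fin M → ℕ)) :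
    Proportion (fun m => Common a F m ∧ m % N = b) (fun m => ∃ k ∈ A, Coranks a F k m)
      (∑' k : A, ∏ i, g (k.1 i)) := by
  have h1 := law_set h.hyp hN hbc (hex.imp fun m hm => ⟨common_iff.1 hm.1, hm.2⟩) A
  have e : (∑' k : A, ∏ i, g (k.1 i)) = ∑' k : A, ∏ i, Run7.h843.L.gk (k.1 i) :=
    tsum_congr fun k => Finset.prod_congr rfl fun i _ => g_eq _
  rw [e]
  refine Prp.congr (fun m => and_congr_left fun _ => common_iff.symm) (fun m hm => ?_) h1
  exact exists_congr fun k => and_congr_right fun _ =>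
    (coranks_iff h (common_iff.2 hm.1) k).symm

theorem triv_iff {t : ℤ × ℤ × ℤ} (h : Signed t) {m : ℕ} (hm : Admissible t.1 t.2.1 (t.2.2 * m)) :
    Trivial (E t.1 t.2.1 (t.2.2 * m)) ↔ Nf m = 2 ^ (0 + 1) := by
  obtain ⟨j, h1, -, -, -, -, h6⟩ := core h.pair hm
  rw [natAbs_sign h] at h1
  rw [h6, h1]
  constructor
  · rintro rfl
    rfl
  · intro h7
    have := Nat.pow_right_injective le_rfl h7
    omega

theorem law_triv (h : Data a F) (hN : 0 < N) (hbc : b.Coprime N)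
    (hex : ∃ m, Common a F m ∧ m % N = b) (S : Finset (Fin M)) :
    Proportion (fun m => Common a F m ∧ m % N = b)
      (fun m => ∀ i, ∀ t ∈ F i, (Trivial (twist t (a i) m) ↔ i ∈ S))
      (η ^ S.card * (1 - η) ^ (M - S.card)) := by
  have e : η = Run7.h843.L.gk 0 := by
    rw [← g_eq]
    unfold g
    simp
  have h1 := law_set h.hyp hN hbc (hex.imp fun m hm => ⟨common_iff.1 hm.1, hm.2⟩)
    {r : Fin M → ℕ | ∀ i, r i = 0 ↔ i ∈ S}
  rw [tsum_pat, ← e] at h1
  refine Prp.congr (fun m => and_congr_left fun _ => common_iff.symm) (fun m hm => ?_) h1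
  have hC : Common a F m := common_iff.2 hm.1
  obtain ⟨k, hk⟩ := exists_coranks h hC
  have hk' := (coranks_iff h hC k).1 hk
  have key : ∀ i, ∀ t ∈ F i, (Trivial (twist t (a i) m) ↔ k i = 0) := by
    intro i t ht
    have h2 := triv_iff (h.signed i t ht) (hC.2 i t ht)
    unfold twist
    rw [h2, part_eq, hk' i]
    constructor
    · intro h7
      have := Nat.pow_right_injective le_rfl h7
      omega
    · intro h7
      rw [h7]
  constructor
  · rintro ⟨r, hr, hr'⟩ i t ht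
    rw [key i t ht, ← hr i]
    have h7 := (hk' i).symm.trans (hr' i)
    have h8 := Nat.pow_right_injective le_rfl h7
    constructor <;> intro <;> omega
  · intro h2
    refine ⟨k, fun i => ?_, hk'⟩
    obtain ⟨t, ht⟩ := h.nonempty i
    rw [← key i t ht]
    exact h2 i t ht

theorem low (h : Data a F) (hN : 0 < N) (hbc : b.Coprime N)
    (hex : ∃ m, Common a F m ∧ m % N = b) :
    ∃ α : ℝ, 0 < α ∧ ∀ᶠ X : ℕ in atTop,
      α * X ≤ (num (fun m => Common a F m ∧ m % N = b) (fun _ => True) X : ℝ) := by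
  obtain ⟨α, hα, h1⟩ := lowJ h.hyp hN hbc (hex.imp fun m hm => ⟨common_iff.1 hm.1, hm.2⟩)
  refine ⟨α, hα, h1.mono fun X hX => ?_⟩
  have e : num (fun m => Common a F m ∧ m % N = b) (fun _ => True) X =
      nm (fun m => CmJ a F m ∧ m % N = b) (fun _ => True) X :=
    nm_congr (fun m => and_congr_left fun _ => common_iff) (fun _ _ => Iff.rfl) X
  rwa [e]

theorem G_eq : ∀ r : ℕ, G r = Pool.Agent.Run7.h289.MO.Ga r
  | 0 => rfl
  | 1 => rfl
  | (r + 2) => by
    show 2 * G (r + 1) + (2 ^ (r + 1) - 1) * G r = _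
    rw [G_eq (r + 1), G_eq r]
    rfl

theorem average_of (K : ℕ → Prop) (f : ℕ → ℝ) (X : ℕ) (s : Finset ℕ)
    (hs : ∀ m, m ∈ s ↔ m ≤ X ∧ K m) : average K f X = (∑ n ∈ s, f n) / (s.card : ℝ) := by
  classical
  unfold average
  have e : (Finset.range (X + 1)).filter K = s := by
    ext m
    rw [hs, Finset.mem_filter, Finset.mem_range, Nat.lt_succ_iff]
  rw [← e]

theorem average_eq (f : ℕ → ℝ) (X : ℕ) :
    average (fun m => Common a F m ∧ m % N = b) f X =
      (∑ n ∈ Pool.Agent.Run7.h289.MO.AX a F N b X, f n) /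
        ((Pool.Agent.Run7.h289.MO.AX a F N b X).card : ℝ) := by
  refine average_of _ f X _ fun m => ?_
  rw [Pool.Agent.Run7.h289.MO.mem_AX, common_iff]

theorem moments (h : Data a F) (hN : 0 < N) (hbc : b.Coprime N)
    (hex : ∃ m, Common a F m ∧ m % N = b) (e : Fin M → ℕ) (t : Fin M → ℤ × ℤ × ℤ)
    (ht : ∀ i, t i ∈ F i) :
    Tendsto (average (fun m => Common a F m ∧ m % N = b) fun m =>
      ∏ i, (Nat.card (Sel₁ (t i).1 (t i).2.1 ((t i).2.2 * part (a i) m)) : ℝ) ^ e i) atTop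
      (𝓝 (∏ i, (2 : ℝ) ^ e i * G (e i))) ∧
    Tendsto (average (fun m => Common a F m ∧ m % N = b) fun m =>
      ∏ i, (Nat.card (Sel₂ (t i).1 (t i).2.1 ((t i).2.2 * part (a i) m)) : ℝ) ^ e i) atTop
      (𝓝 (∏ i, (2 : ℝ) ^ e i * G (e i))) := by
  have h1 := (Pool.Agent.Run7.h289.MO.avg h.hyp hN hbc
    (hex.imp fun m hm => ⟨common_iff.1 hm.1, hm.2⟩) e).const_mul (∏ i, (2 : ℝ) ^ e i)
  have e1 : (∏ i, (2 : ℝ) ^ e i) * ∏ i, (Pool.Agent.Run7.h289.MO.Ga (e i) : ℝ) =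
      ∏ i, (2 : ℝ) ^ e i * G (e i) := by
    rw [← Finset.prod_mul_distrib]
    exact Finset.prod_congr rfl fun i _ => by rw [G_eq]
  rw [e1] at h1
  have key : ∀ S : ℤ → ℤ → ℤ → Set ℤ, (∀ m, Common a F m → ∀ i,
      Nat.card (S (t i).1 (t i).2.1 ((t i).2.2 * part (a i) m)) =
        2 ^ (Pool.Agent.Run7.h289.MO.qq a m i + 1)) →
      Tendsto (average (fun m => Common a F m ∧ m % N = b) fun m =>
        ∏ i, (Nat.card (S (t i).1 (t i).2.1 ((t i).2.2 * part (a i) m)) : ℝ) ^ e i) atTop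
        (𝓝 (∏ i, (2 : ℝ) ^ e i * G (e i))) := by
    intro S hS
    refine h1.congr fun X => ?_
    rw [average_eq, ← mul_div_assoc, Finset.mul_sum]
    congr 1
    refine Finset.sum_congr rfl fun m hm => ?_
    have hc := (Pool.Agent.Run7.h289.MO.mem_AX.1 hm).2.1
    rw [← Finset.prod_mul_distrib]
    refine Finset.prod_congr rfl fun i _ => ?_
    rw [hS m (common_iff.2 hc) i]
    push_cast
    rw [← pow_mul, ← pow_add]
    congr 1
    ring
  have hq : ∀ m, Common a F m → Coranks a F (Pool.Agent.Run7.h289.MO.qq a m) m := fun m hm =>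
    (coranks_iff h hm _).2 fun i => Pool.Agent.Run7.h289.MO.qq_spec h.hyp (common_iff.1 hm) i
  exact ⟨key Sel₁ fun m hm i => (hq m hm i (t i) (ht i)).1,
    key Sel₂ fun m hm i => (hq m hm i (t i) (ht i)).2⟩

theorem sha_avg (h : Data a F) (hN : 0 < N) (hbc : b.Coprime N)
    (hex : ∃ m, Common a F m ∧ m % N = b) (e : Fin M → ℕ) (t : Fin M → ℤ × ℤ × ℤ)
    (ht : ∀ i, t i ∈ F i) (ε : ℝ) (hε : 0 < ε) :
    ∀ᶠ X : ℕ in atTop, average (fun m => Common a F m ∧ m % N = b) (fun m =>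
      ∏ i, ((2 ^ Module.finrank ℤ (twist (t i) (a i) m).toAffine.Point *
        Nat.card (ShaTwo (twist (t i) (a i) m)) : ℕ) : ℝ) ^ e i) X ≤
      ∏ i, (G (2 * e i) : ℝ) + ε := by
  have h1 := Pool.Agent.Run7.h289.MO.avg h.hyp hN hbc
    (hex.imp fun m hm => ⟨common_iff.1 hm.1, hm.2⟩) (fun i => 2 * e i)
  have h2 := (tendsto_order.1 h1).2 (∏ i, (G (2 * e i) : ℝ) + ε) (by
    have e1 : ∏ i, (Pool.Agent.Run7.h289.MO.Ga (2 * e i) : ℝ) = ∏ i, (G (2 * e i) : ℝ) :=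
      Finset.prod_congr rfl fun i _ => by rw [G_eq]
    rw [e1]
    linarith)
  refine h2.mono fun X hX => le_trans ?_ hX.le
  rw [average_eq]
  refine div_le_div_of_nonneg_right (Finset.sum_le_sum fun m hm => ?_) (Nat.cast_nonneg _)
  have hc := common_iff.2 (Pool.Agent.Run7.h289.MO.mem_AX.1 hm).2.1
  refine Finset.prod_le_prod (fun i _ => by positivity) fun i _ => ?_
  obtain ⟨k, k1, -, -, -, k2, -⟩ := core (h.signed i (t i) (ht i)).pair (hc.2 i (t i) (ht i))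
  rw [natAbs_sign (h.signed i (t i) (ht i))] at k1
  have k3 := Pool.Agent.Run7.h289.MO.qq_spec h.hyp (common_iff.1 hc) i
  have k4 : k = Pool.Agent.Run7.h289.MO.qq a m i := by
    have h7 := k1.symm.trans k3
    have h8 := Nat.pow_right_injective le_rfl h7
    omega
  rw [k4] at k2
  have k5 : ((2 ^ Module.finrank ℤ (twist (t i) (a i) m).toAffine.Point *
      Nat.card (ShaTwo (twist (t i) (a i) m)) : ℕ) : ℝ) ≤
      4 ^ Pool.Agent.Run7.h289.MO.qq a m i := by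
    exact_mod_cast k2
  refine (pow_le_pow_left₀ (Nat.cast_nonneg _) k5 (e i)).trans (le_of_eq ?_)
  have e4 : (4 : ℝ) = 2 ^ 2 := by norm_num
  rw [e4, ← pow_mul, ← pow_mul]
  congr 1
  ring

theorem mult {u v w : ℤ} (hw : w = 1 ∨ w = -1) {a m : ℕ} (ha : Squarefree a)
    (hm : Squarefree m) (h8 : a % 8 = 1)
    (hsq : ∀ p : ℕ, p.Prime → p ≠ 2 → (p : ℤ) ∣ u * v * (u ^ 2 - v ^ 2) →
      IsSquare (a : ZMod p) ∧ ¬ p ∣ a) :
    Admissible u v (w * part a m) ↔ Admissible u v (w * m) := by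
  rw [adm_iff, adm_iff, part_eq]
  exact ad_mul hw ha hm h8 hsq

theorem primes {u v : ℤ} (h : Pair u v) (n : ℕ) : ∃ a : ℕ, n < a ∧ a.Prime ∧ a % 8 = 1 ∧
    ∀ p : ℕ, p.Prime → p ≠ 2 → (p : ℤ) ∣ u * v * (u ^ 2 - v ^ 2) →
      IsSquare (a : ZMod p) ∧ ¬ p ∣ a := by
  have hne : u * v * (u ^ 2 - v ^ 2) ≠ 0 :=
    mul_ne_zero (mul_ne_zero h.left h.right) (sub_ne_zero.2 h.ne)
  have hk : 8 * (u * v * (u ^ 2 - v ^ 2)).natAbs ≠ 0 :=
    mul_ne_zero (by norm_num) (Int.natAbs_ne_zero.2 hne)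
  obtain ⟨a, ha, hn, h1⟩ := Nat.exists_prime_gt_modEq_one n hk
  refine ⟨a, hn, ha, ?_, fun p hp hp2 hd => ?_⟩
  · exact h1.of_dvd (Dvd.intro _ rfl)
  · have h2 : a ≡ 1 [MOD p] := h1.of_dvd ((Int.natCast_dvd.1 hd).mul_left 8)
    have : Fact p.Prime := ⟨hp⟩
    have h3 : (a : ZMod p) = 1 := by
      have := (ZMod.natCast_eq_natCast_iff a 1 p).2 h2
      rwa [Nat.cast_one] at this
    refine ⟨by rw [h3]; exact ⟨1, (mul_one 1).symm⟩, fun hd' => ?_⟩
    have h4 := (ZMod.natCast_eq_zero_iff a p).2 hd'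
    rw [h3] at h4
    exact one_ne_zero h4

end

end proof

/-- **The curves with full rational 2-torsion and a cyclic 4-isogeny: Selmer groups, rank, Sha.** -/
theorem result :
    -- the classification
    (∀ α β : ℚ, α ≠ 0 → β ≠ 0 → α ≠ β → IsSquare (α * β) →
      ∃ (u v D : ℤ) (c : ℚ), Pair u v ∧ Squarefree D ∧ c ≠ 0 ∧ α = c ^ 2 * (u ^ 2 * D) ∧
        β = c ^ 2 * (v ^ 2 * D)) ∧
    -- the j-invariants
    (∀ u v D : ℤ, Pair u v → D ≠ 0 → (E u v D).Δ ≠ 0 ∧ (E u v D).c₄ ^ 3 / (E u v D).Δ =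
        ((256 * (u ^ 4 - u ^ 2 * v ^ 2 + v ^ 4) ^ 3 : ℤ) : ℚ) /
          ((u ^ 4 * v ^ 4 * (u ^ 2 - v ^ 2) ^ 2 : ℤ) : ℚ) ∧
      IsCoprime (u ^ 4 - u ^ 2 * v ^ 2 + v ^ 4) (u * v * (u ^ 2 - v ^ 2))) ∧
    -- the Selmer groups
    (∀ u v D : ℤ, Pair u v → Admissible u v D →
      (0 < D → Sel₁ u v D = A D.natAbs ∧ Sel₂ u v D = B D.natAbs) ∧
      (D < 0 → Sel₁ u v D = B D.natAbs ∧ Sel₂ u v D = A D.natAbs) ∧
      ∃ k : ℕ, Nat.card (Sel₁ u v D) = 2 ^ (k + 1) ∧ Nat.card (Sel₂ u v D) = 2 ^ (k + 1) ∧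
        Finite (ShaTwo (E u v D)) ∧
        2 ^ Module.finrank ℤ (E u v D).toAffine.Point * Nat.card (ShaTwo (E u v D)) ≤ 4 ^ k ∧
        (Trivial (E u v D) ↔ k = 0)) ∧
    -- the joint law
    (∀ (M : ℕ) (a : Fin M → ℕ) (F : Fin M → Finset (ℤ × ℤ × ℤ)), Data a F → ∀ N b : ℕ, 0 < N →
      b.Coprime N → (∃ m, Common a F m ∧ m % N = b) →
      (∀ m, Common a F m → ∃ k, Coranks a F k m) ∧
      (∀ A : Set (Fin M → ℕ), Proportion (fun m => Common a F m ∧ m % N = b)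
        (fun m => ∃ k ∈ A, Coranks a F k m) (∑' k : A, ∏ i, g (k.1 i))) ∧
      (∀ S : Finset (Fin M), Proportion (fun m => Common a F m ∧ m % N = b)
        (fun m => ∀ i, ∀ t ∈ F i, (Trivial (twist t (a i) m) ↔ i ∈ S))
        (η ^ S.card * (1 - η) ^ (M - S.card))) ∧
      (∀ (e : Fin M → ℕ) (t : Fin M → ℤ × ℤ × ℤ), (∀ i, t i ∈ F i) →
        Tendsto (average (fun m => Common a F m ∧ m % N = b) fun m =>
          ∏ i, (Nat.card (Sel₁ (t i).1 (t i).2.1 ((t i).2.2 * part (a i) m)) : ℝ) ^ e i) atTop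
          (𝓝 (∏ i, (2 : ℝ) ^ e i * G (e i))) ∧
        Tendsto (average (fun m => Common a F m ∧ m % N = b) fun m =>
          ∏ i, (Nat.card (Sel₂ (t i).1 (t i).2.1 ((t i).2.2 * part (a i) m)) : ℝ) ^ e i) atTop
          (𝓝 (∏ i, (2 : ℝ) ^ e i * G (e i))) ∧
        ∀ ε : ℝ, 0 < ε → ∀ᶠ X : ℕ in atTop,
          average (fun m => Common a F m ∧ m % N = b) (fun m =>
            ∏ i, ((2 ^ Module.finrank ℤ (twist (t i) (a i) m).toAffine.Point *
              Nat.card (ShaTwo (twist (t i) (a i) m)) : ℕ) : ℝ) ^ e i) X ≤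
            ∏ i, (G (2 * e i) : ℝ) + ε) ∧
      ∃ α : ℝ, 0 < α ∧ ∀ᶠ X : ℕ in atTop,
        α * X ≤ (num (fun m => Common a F m ∧ m % N = b) (fun _ => True) X : ℝ)) ∧
    -- existence
    (∀ u v w : ℤ, Pair u v → ((w = 1 ∧ u * v % 2 = 1) ∨ (w = -1 ∧ u * v % 2 = 0)) →
      (∀ n : ℕ, ∃ m : ℕ, ∀ i ≤ n, Pair (u ^ 2 ^ i) (v ^ 2 ^ i) ∧
        Admissible (u ^ 2 ^ i) (v ^ 2 ^ i) (w * m)) ∧
      ∀ i j : ℕ, i < j → ∃ p : ℕ, p.Prime ∧ p ≠ 2 ∧ (p : ℤ) ∣ (u ^ 2 ^ j) ^ 2 - (v ^ 2 ^ j) ^ 2 ∧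
        ¬ (p : ℤ) ∣ u ^ 2 ^ i * v ^ 2 ^ i * ((u ^ 2 ^ i) ^ 2 - (v ^ 2 ^ i) ^ 2)) ∧
    -- multipliers
    (∀ u v : ℤ, Pair u v →
      (∀ (w : ℤ) (a m : ℕ), (w = 1 ∨ w = -1) → Squarefree a → Squarefree m → a % 8 = 1 →
        (∀ p : ℕ, p.Prime → p ≠ 2 → (p : ℤ) ∣ u * v * (u ^ 2 - v ^ 2) →
          IsSquare (a : ZMod p) ∧ ¬ p ∣ a) →
        (Admissible u v (w * part a m) ↔ Admissible u v (w * m))) ∧
      ∀ n : ℕ, ∃ a : ℕ, n < a ∧ a.Prime ∧ a % 8 = 1 ∧
        ∀ p : ℕ, p.Prime → p ≠ 2 → (p : ℤ) ∣ u * v * (u ^ 2 - v ^ 2) →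
          IsSquare (a : ZMod p) ∧ ¬ p ∣ a) ∧
    HasSum g 1 ∧ 0.2887 < η ∧ η < 0.2889 := by
  refine ⟨?_, ?_, ?_, fun M a F h N b hN hbc hex => ⟨fun m hm => exists_coranks h hm,
    law_sel h hN hbc hex, law_triv h hN hbc hex, fun e t ht =>
      ⟨(moments h hN hbc hex e t ht).1, (moments h hN hbc hex e t ht).2,
        sha_avg h hN hbc hex e t ht⟩, low h hN hbc hex⟩, ?_,
    fun u v h => ⟨fun w a m hw ha hm h8 hsq => mult hw ha hm h8 hsq, primes h⟩, ?_,
    Pool.Agent.N916.GB.eta_bounds.1, Pool.Agent.N916.GB.eta_bounds.2⟩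
  · intro α β h1 h2 h3 h4
    obtain ⟨u, v, D, c, h5, h6, h7, h8, h9⟩ := Pool.Agent.Run7.h289.D18.classify h1 h2 h3 h4
    exact ⟨u, v, D, c, pair_iff.2 h5, h6, h7, h8, h9⟩
  · intro u v D h hD
    have h1 := Pool.Agent.Run7.h289.D18.j_eq (pair_iff.1 h) hD
    rw [E_eq]
    exact ⟨h1.1, h1.2, Pool.Agent.Run7.h289.D18.cop_j (pair_iff.1 h)⟩
  · intro u v D h hD
    obtain ⟨s1, s2⟩ := Pool.Agent.Run7.h289.D18.selmer (pair_iff.1 h) (adm_iff.1 hD)
    obtain ⟨k, -, h2⟩ := core h hD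
    exact ⟨s1, s2, k, h2⟩
  · intro u v w h hw
    refine ⟨fun n => ?_, fun i j hij => Pool.Agent.Run7.h289.D18.new_prime (pair_iff.1 h) hij⟩
    obtain ⟨m, -, hm⟩ := Pool.Agent.Run7.h289.D18.exists_adm (pair_iff.1 h) hw n
    exact ⟨m, fun i hi => ⟨pair_iff.2 (Pool.Agent.Run7.h289.D18.pr_pow (pair_iff.1 h) i),
      adm_iff.2 (hm i hi)⟩⟩
  · have e : g = Run7.h843.L.gk := funext g_eq
    rw [e]
    exact Pool.Agent.Run7.h843.G.gk_hasSum

end Pool.Agent.Results.MP_e23604_nt.FullTorsionLaw
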