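import Pool.Agent.Run7.h843.R11
import Pool.Agent.Run7.h741.S8.Fin
import Pool.Agent.N916.GB.Num

/-!
# The 2-primary parts of the Tate-Shafarevich groups of the twists of the curve with complex
# multiplication by `ℤ[√-2]`

Let `m` be a squarefree odd positive integer and `A_m : y² = x³ - 4 m x² + 2 m² x`, the quadratic twist
by `m` of the curve `y² = x³ - 4 x² + 2 x`, which has complex multiplication by `ℤ[√-2]` (`j = 8000`).
* `M m` is the following matrix over `𝔽₂`. Its rows and columns are indexed by the prime divisors of `m`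
  which are `1` or `7` modulo `8`; for `p ≠ q` the entry is `1` if `q` is not a square modulo `p`, else
  `0`; the entry at `p = q` is the number of the prime divisors `r` of `m` which are not squares
  modulo `p`, plus `1` if `p` is `7` or `9` modulo `16`.
* `A_m(ℚ)` is finite and `Ш(A_m/ℚ)[2^∞] = 0` if and only if `det (M m) ≠ 0`.
* Natural density: let `η = ∏_{i ≥ 1} (1 - 2^{-i}) = 0.2888...`. Among all the odd squarefree `m`, and
  also among those in a class `b` modulo `N` prime to `N` (for every `N` divisible by `8`), exactly the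
  proportion `η` has `A_m(ℚ)` finite and `Ш(A_m/ℚ)[2^∞] = 0`.
* Let `c = ∏_{i ≥ 0} (1 - 2^{-(2i+1)}) = 0.4194...`. Among the squarefree `m` whose prime factors are
  `1`, `3` or `5` modulo `8` (a set of density zero, where `M m` is symmetric), the proportion is `c`.

The proof:
* the locally trivial cocycles with values in the points killed by two are bounded by the classes
  which satisfy the local conditions of the two isogenies of degree two (`Pool/Agent/Y682`); the local
  conditions over all completions of `ℚ` are computed in `Run7/h843/R1` to `R5`; at a prime divisor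
  `p = ± 1` modulo `8` of `m` they involve the class of `2 + √2` modulo `p`, a square if and only if
  `p = ± 1` modulo `16` (`R3`); the two systems are transposes of each other (`R6`);
* conversely a vector in the kernel of the transposed matrix gives a quadratic character `χ` such that
  the cocycle `χ · (0, 0)` is locally trivial everywhere and not a coboundary (`R9`, on the base of
  `Pool/Agent/Y698/SG`, `Y587/SG`);
* the counts: `Run7/h741/NT`, `NM` (on the base of `Pool/Agent/N916/GB`) and `Run7/h741/S8`.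
-/

set_option autoImplicit false

open Filter Topology

namespace Pool.Agent.Results.MP_e23604_nt.ShaTwistsSqrtNegTwo

/-- the curve `y² = x³ - 4 m x² + 2 m² x` over `ℚ` -/
def A (m : ℕ) : WeierstrassCurve ℚ :=
  { a₁ := 0, a₂ := -4 * (m : ℚ), a₃ := 0, a₄ := 2 * (m : ℚ) ^ 2, a₆ := 0 }

/-- `A_m(ℚ)` is finite and `Ш(A_m/ℚ)[2^∞] = 0` -/
structure Trivial (m : ℕ) : Prop where
  finite : Finite (A m).toAffine.Point
  sha : ∀ (n : ℕ) (x : Pool.Agent.TH841.NF.D.Sha (A m)), 2 ^ n • x = 0 → x = 0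

/-- the prime divisors of `m` which are `1` or `7` modulo `8` -/
def S (m : ℕ) : Finset ℕ := m.primeFactors.filter fun p => p % 8 = 1 ∨ p % 8 = 7

open Classical in
/-- `1` if `q` is not a square modulo `p`, else `0` -/
noncomputable def nr (p q : ℕ) : ZMod 2 := if IsSquare (q : ZMod p) then 0 else 1

/-- `1` if `p` is `7` or `9` modulo `16`, else `0` -/
def f (p : ℕ) : ZMod 2 := if p % 16 = 7 ∨ p % 16 = 9 then 1 else 0

/-- the matrix -/
noncomputable def M (m : ℕ) : Matrix (S m) (S m) (ZMod 2) := fun p q =>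
  if p = q then ∑ r ∈ m.primeFactors, nr p r + f p else nr p q

/-- the number of the `m ≤ X` in the class `C` with the property `Q` -/
noncomputable def num (C Q : ℕ → Prop) (X : ℕ) : ℕ := Nat.card {m : ℕ // m ≤ X ∧ C m ∧ Q m}

/-- among the numbers of the class `C` exactly the proportion `t` has the property `Q` -/
def Proportion (C Q : ℕ → Prop) (t : ℝ) : Prop :=
  Tendsto (fun X : ℕ => (num C Q X : ℝ) / (num C (fun _ => True) X : ℝ)) atTop (𝓝 t)

/-- `m` is squarefree and odd -/
def OddSquarefree (m : ℕ) : Prop := Squarefree m ∧ Odd m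

/-- `m` is squarefree and its prime factors are `1`, `3` or `5` modulo `8` -/
def Thin (m : ℕ) : Prop :=
  Squarefree m ∧ ∀ p : ℕ, p.Prime → p ∣ m → p % 8 = 1 ∨ p % 8 = 3 ∨ p % 8 = 5

/-- the constant `0.2888...` -/
noncomputable def η : ℝ := ∏' i : ℕ, (1 - (1 / 2 : ℝ) ^ (i + 1))

/-- the constant `0.4194...` -/
noncomputable def c : ℝ := ∏' i : ℕ, (1 - (1 / 2 : ℝ) ^ (2 * i + 1))

section proof

open Run7.h843.R

theorem M_eq (m : ℕ) : @Eq (Matrix (SR m) (SR m) (ZMod 2)) (M m) (MatR m) := by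
  refine Matrix.ext fun p q => ?_
  show (if p = q then ∑ r ∈ m.primeFactors, Pool.Agent.Y703.CQ.nr p r + f16 p
    else Pool.Agent.Y703.CQ.nr p q) = Pool.Agent.Y703.CQ.nr p q +
      if p = q then ∑ r ∈ m.primeFactors, Pool.Agent.Y703.CQ.nr p r + f16 p else 0
  by_cases h : p = q
  · rw [if_pos h, if_pos h, ← h, Run7.h843.Desc.nr_self, zero_add]
  · rw [if_neg h, if_neg h, add_zero]

theorem det_eq (m : ℕ) : (M m).det = (MatR m).det :=
  congrArg (fun N : Matrix (SR m) (SR m) (ZMod 2) => N.det) (M_eq m)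

theorem trivial_iff {m : ℕ} (hm : Squarefree m) (hm2 : Odd m) : Trivial m ↔ (M m).det ≠ 0 := by
  rw [det_eq]
  refine Iff.trans ?_ (iffA_det hm (Nat.odd_iff.1 hm2) (W := A m) (by
    unfold A
    push_cast
    rfl))
  exact ⟨fun h => ⟨h.finite, h.sha⟩, fun h => ⟨h.1, h.2⟩⟩

theorem class_iff {m : ℕ} : Thin m ↔ Squarefree m ∧ Pool.Agent.Run7.h741.S8.P135 m := by
  unfold Thin Pool.Agent.Run7.h741.S8.P135
  refine and_congr_right fun hm => ?_
  constructor
  · intro h p hp
    exact h p (Nat.prime_of_mem_primeFactors hp) (Nat.dvd_of_mem_primeFactors hp)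
  · intro h p hp hpm
    exact h p (Nat.mem_primeFactors.2 ⟨hp, hpm, hm.ne_zero⟩)

theorem class_odd {m : ℕ} (h : Thin m) : Odd m := by
  rw [Nat.odd_iff]
  by_contra h2
  have := h.2 2 Nat.prime_two (by omega)
  omega

theorem ns_iff {m : ℕ} (h : Pool.Agent.Run7.h741.S8.P135 m) :
    NsR m ↔ Pool.Agent.Y703.CQ.Gd f16 m.primeFactors := by
  have h7 : ∀ p ∈ m.primeFactors, (p % 8 = 1 ∨ p % 8 = 7) ↔ p % 8 = 1 := by
    intro p hp
    have := h p hp
    omega
  have hcv : ∀ (x : ℕ → ZMod 2), ∀ q ∈ m.primeFactors, cv x q = Pool.Agent.Y703.CQ.cu x q := by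
    intro x q hq
    unfold cv Pool.Agent.Y703.CQ.cu
    by_cases h1 : q % 8 = 1
    · rw [if_pos (Or.inl h1), if_pos h1]
    · rw [if_neg (fun h2 => h1 ((h7 q hq).1 h2)), if_neg h1]
  have hs : ∀ (x : ℕ → ZMod 2) (p : ℕ),
      ∑ q ∈ m.primeFactors, Pool.Agent.Y703.CQ.nr p q * (cv x q + x p) =
      ∑ q ∈ m.primeFactors, Pool.Agent.Y703.CQ.nr p q * (Pool.Agent.Y703.CQ.cu x q + x p) :=
    fun x p => Finset.sum_congr rfl fun q hq => by rw [hcv x q hq]
  unfold NsR Pool.Agent.Y703.CQ.Gd Pool.Agent.Y703.CQ.Sol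
  constructor
  · intro h1 x hx p hp hp1
    exact h1 x (fun q hq hq1 => by rw [hs]; exact hx q hq ((h7 q hq).1 hq1)) p hp (Or.inl hp1)
  · intro h1 x hx p hp hp1
    exact h1 x (fun q hq hq1 => by rw [← hs]; exact hx q hq (Or.inl hq1)) p hp ((h7 p hp).1 hp1)

open Classical in
theorem num_eq {C C' Q Q' : ℕ → Prop} (h0 : ∀ m, C m → m ≠ 0) (hC : ∀ m, C m ↔ C' m)
    (h : ∀ m, C m → (Q m ↔ Q' m)) (X : ℕ) :
    num C Q X = ((Finset.Icc 1 X).filter fun m => C' m ∧ Q' m).card := by
  unfold num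
  refine Nat.subtype_card _ fun m => ?_
  rw [Finset.mem_filter, Finset.mem_Icc]
  constructor
  · rintro ⟨⟨-, h2⟩, h3, h4⟩
    have hc := (hC m).2 h3
    exact ⟨h2, hc, (h m hc).2 h4⟩
  · rintro ⟨h2, hc, h5⟩
    exact ⟨⟨Nat.one_le_iff_ne_zero.2 (h0 m hc), h2⟩, (hC m).1 hc, (h m hc).1 h5⟩

open Classical in
/-- transport of a proportion -/
theorem prop_of {C C' Q Q' : ℕ → Prop} {t : ℝ} (h0 : ∀ m, C m → m ≠ 0) (hC : ∀ m, C m ↔ C' m)
    (h : ∀ m, C m → (Q m ↔ Q' m)) (ht : Tendsto (fun X : ℕ =>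
      (((Finset.Icc 1 X).filter fun m => C' m ∧ Q' m).card : ℝ) /
        (((Finset.Icc 1 X).filter fun m => C' m).card : ℝ)) atTop (𝓝 t)) : Proportion C Q t := by
  refine ht.congr fun X => ?_
  rw [num_eq h0 hC h X, num_eq (Q' := fun _ => True) h0 hC (fun _ _ => Iff.rfl) X]
  simp only [and_true]

theorem odd_case {m : ℕ} (h : OddSquarefree m) :
    Trivial m ↔ Pool.Agent.Run7.h741.NT.Gd 7 f16 m.primeFactors := by
  rw [trivial_iff h.1 h.2, ← nsR_iff_gd, NsR_iff, det_eq]

theorem thin_case {m : ℕ} (h : Thin m) : Trivial m ↔ Pool.Agent.Y703.CQ.Gd f16 m.primeFactors := by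
  have h2 := class_iff.1 h
  rw [trivial_iff h2.1 (class_odd h), ← ns_iff h2.2, NsR_iff, det_eq]

end proof

/-- **The 2-primary parts of the Tate-Shafarevich groups of the quadratic twists of the curve with
complex multiplication by `ℤ[√-2]`.** -/
theorem result :
    -- the criterion
    (∀ m : ℕ, Squarefree m → Odd m → (Trivial m ↔ (M m).det ≠ 0)) ∧
    -- all odd squarefree numbers
    Proportion OddSquarefree Trivial η ∧
    (∃ a : ℝ, 0 < a ∧ ∀ᶠ X : ℕ in atTop, a * X ≤ (num OddSquarefree (fun _ => True) X : ℝ)) ∧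
    -- those in one residue class
    (∀ N b : ℕ, 8 ∣ N → b < N → b.Coprime N →
      Proportion (fun m => Squarefree m ∧ m % N = b) Trivial η) ∧
    -- a thin set
    Proportion Thin Trivial c ∧
    0.2887 < η ∧ η < 0.2889 ∧ 0.4194 < c ∧ c < 0.4195 := by
  classical
  have hodd : ∀ m, OddSquarefree m ↔ Squarefree m ∧ m % 2 = 1 := fun m => by
    unfold OddSquarefree
    rw [Nat.odd_iff]
  have h1 : Proportion OddSquarefree Trivial η := by
    refine prop_of (C' := fun m => Squarefree m ∧ m % 2 = 1) (fun m h => h.1.ne_zero) hodd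
      (fun m h => odd_case h) ?_
    refine (Pool.Agent.Run7.h741.NT.densOdd 7 (Or.inr rfl) Run7.h843.R.f16).congr fun X => ?_
    congr 3 <;> ext n <;> simp only [Finset.mem_filter, and_assoc]
  refine ⟨fun m => trivial_iff, h1, ?_, ?_, ?_, Pool.Agent.N916.GB.eta_bounds.1,
    Pool.Agent.N916.GB.eta_bounds.2, Pool.Agent.Run7.h741.S8.c2_facts.1,
    Pool.Agent.Run7.h741.S8.c2_facts.2⟩
  · refine ⟨1 / (4 * ((8 : ℕ) : ℝ)), by norm_num, eventually_atTop.2 ⟨100 * 8 ^ 2, fun X hX => ?_⟩⟩
    refine (Pool.Agent.Run7.h741.NM.low (M := 8) (a := 1) (by norm_num) (by norm_num) (by norm_num)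
      (by norm_num) X hX).trans ?_
    have h2 := num_eq (Q' := fun _ => True) (fun m h => h.1.ne_zero) hodd (fun _ _ => Iff.rfl) X
    rw [h2]
    refine Nat.cast_le.2 (Finset.card_le_card fun n hn => ?_)
    simp only [Finset.mem_filter] at hn ⊢
    exact ⟨hn.1, ⟨hn.2.1, by omega⟩, trivial⟩
  · intro N b hN hb hc
    have hN0 : 0 < N := by omega
    have hb2 : b % 2 = 1 := by
      by_contra h
      have h3 : 2 ∣ Nat.gcd b N := Nat.dvd_gcd (by omega) (by omega)
      rw [hc] at h3
      omega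
    refine prop_of (C' := fun m => Squarefree m ∧ m % N = b) (fun m h => h.1.ne_zero)
      (fun _ => Iff.rfl) (fun m h => odd_case ⟨h.1, ?_⟩) ?_
    · rw [Nat.odd_iff, ← Nat.mod_mod_of_dvd m (show 2 ∣ N by omega), h.2]
      exact hb2
    · refine (Pool.Agent.Run7.h741.NM.dens N hN hN0 7 (Or.inr rfl) Run7.h843.R.f16 {b}
        (fun a ha => ?_) b (Finset.mem_singleton_self b) hc).congr fun X => ?_
      · rw [Finset.mem_singleton.1 ha]
        exact ⟨hb, hb2⟩
      · congr 3 <;> ext n <;> simp only [Finset.mem_filter, Finset.mem_singleton, and_assoc]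
  · refine prop_of (C' := fun m => Squarefree m ∧ Pool.Agent.Run7.h741.S8.P135 m)
      (fun m h => h.1.ne_zero) (fun m => class_iff) (fun m h => thin_case h) ?_
    refine (Pool.Agent.Run7.h741.S8.t_DEN Run7.h843.R.f16).congr fun X => ?_
    congr 3 <;> ext n <;> simp only [Finset.mem_filter, and_assoc]

end Pool.Agent.Results.MP_e23604_nt.ShaTwistsSqrtNegTwo
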