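import Pool.Agent.N922.PQ.Unr
import Pool.Agent.Run7.h23.Cnt3

/-!
# The 2-primary parts of the Tate-Shafarevich groups of many quadratic twists at the same time

Let `K / ℚ` be a finite Galois extension of 2-power degree in which the prime `2` is unramified
(`K = ℚ` is allowed), `T` a finite set of primes, `t` one of `1`, `-1`, `2`, `-2`.

Theorem. A positive proportion of ALL elliptic curves `E : y ^ 2 = x ^ 3 + A x + B` over `ℚ`, ordered by
height, has the following property. For EVERY integer `d ≠ 0` such that each prime divisor `q` of `d`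
is in `T` or is a prime modulo which `x ^ 3 + A x + B` has no zero:
* if `t d` is not of the form `4 ^ k (4 m + 3)`, then the quadratic twist `E ^ d` has trivial 2-Selmer group
  over `K`, `Ш(E ^ d / K)[2 ^ ∞] = 0` and `E ^ d (K) = 0`;
* without any condition on `t d`, the 2-Selmer group of `E ^ d` over `ℚ` has at most two elements, and
  the rank of `E ^ d (ℚ)` is at most one.

So for every finite set of `d` which misses one of the four cosets of `⟨5⟩` in `ℚ_2 ^ * / squares` (for
example any three integers `d`, or all odd integers `d` composed of the primes in `T`) a positive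
proportion of all elliptic curves has trivial `Ш[2 ^ ∞]` for all these twists at the same time; and
each of these curves has this property for an infinite set of `d` besides (there are infinitely many
primes modulo which an irreducible cubic polynomial has no zero, by Chebotarev; this is not part of
the formal statement, the formal statement is about all such `d`).

The proof. We use the method of `N922` (explained in `MP_775b3b_nt.PositiveProportionUnramified`):
pairs `(a, b)` with squarefree `4 a ^ 3 + 27 b ^ 2`, `a > 0`, here `a` and `b` are both `3` modulo `4`, for which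
`X ^ 3 + a X + b` is irreducible modulo the primes in a finite set which contains `T`, and the twists
by the subproducts `D` of a large product of primes which split in `K`. For the good pairs there is
ONE `D` for which the Selmer group, relaxed at all the primes modulo which the polynomial has no
zero and without the condition at `2`, contains only the classes `α` for which `α` is not of the form
which is forced by the condition at `2`; it does not depend on the twist by `d`: the primes modulo
which the polynomial has no zero give no condition, the conditions at the primes dividing the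
discriminant do not change (the valuations are even), and there is no condition at infinity. At the
prime `2` we compute the classes of the points of the twist by `e = t D d` over all unramified
extensions of `ℚ_2`, modulo `4`: for `a` and `b` both `3` modulo `4` and `e` not of the form `4 ^ k (4 m + 3)`
a point of `y ^ 2 = e (x ^ 3 + a x + b)` over the unramified extension has the class of a unit
`1 + 2 (g₁ θ + g₂ θ ^ 2)` modulo `4` only if `g₂` is even and (if it is not a square) the class is that of a point
of the curve itself over `ℚ_2`, whatever `e` is. So one group kills the classes for all `e`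
at the same time. For the excluded `e` the classes over `ℚ_2` which come from points form one
line, and two Selmer classes differ by an element which is killed.

The lemmas on the twists are in `Pool/Agent/Run7/h23` (helper23); the theorems on lattices,
reduction, reciprocity, linear algebra and Galois descent are those of the projects PQ and PV of
`N922`.
-/

set_option autoImplicit false
set_option linter.all false

namespace Pool.Agent.Results.MP_e23604_nt.SimultaneousTwists

open Filter NumberField IsDedekindDomain Pool.Agent.TH115.GD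
open scoped Classical

/-- The equation `y ^ 2 = x ^ 3 + A x + B` with integers `A`, `B` defines an elliptic curve, and
there is no prime `p` with `p ^ 4 ∣ A` and `p ^ 6 ∣ B`. Every elliptic curve over `ℚ` is isomorphic to
exactly one of these. -/
structure IsMinimal (A B : ℤ) : Prop where
  elliptic : 4 * A ^ 3 + 27 * B ^ 2 ≠ 0
  minimal : ∀ p : ℕ, p.Prime → ¬ ((p : ℤ) ^ 4 ∣ A ∧ (p : ℤ) ^ 6 ∣ B)

/-- The height. -/
def height (p : ℤ × ℤ) : ℤ := max (4 * |p.1| ^ 3) (27 * p.2 ^ 2)

/-- The set of all elliptic curves over `ℚ` of height at most `X`. -/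
def Curves (X : ℕ) : Set (ℤ × ℤ) := {p | IsMinimal p.1 p.2 ∧ height p ≤ X}

/-- The curve `y ^ 2 = x ^ 3 + A x + B` over `K`. -/
def curve (K : Type) [Field K] (p : ℤ × ℤ) : WeierstrassCurve K := ⟨0, 0, 0, (p.1 : K), (p.2 : K)⟩

/-- The quadratic twist by `d`: `y ^ 2 = x ^ 3 + A d ^ 2 x + B d ^ 3`. -/
def twist (p : ℤ × ℤ) (d : ℤ) : ℤ × ℤ := (p.1 * d ^ 2, p.2 * d ^ 3)

section sha

variable (K : Type) [Field K] [NumberField K] (W : WeierstrassCurve K)

/-- The cocycle `f` of `Gal(Sep K / K)` is a coboundary over the completion of `K` at every maximal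
ideal of the ring of integers. -/
def Locally (f : (Sep K ≃ₐ[K] Sep K) → Pt W (Sep K)) : Prop :=
  ∀ v : HeightOneSpectrum (𝓞 K), LocTriv W (Comp (𝓞 K) K v) (Sep (Comp (𝓞 K) K v)) f

/-- `f` is a 2-Selmer cocycle: continuous, with values in the points of order two, and a coboundary
over all completions (at the finite places), with values in all points. -/
structure SelCoc (f : (Sep K ≃ₐ[K] Sep K) → Pt W (Sep K)) : Prop where
  coc : IsCoc W f
  two : ∀ σ, (2 : ℕ) • f σ = 0
  loc : Locally K W f

/-- `f` is the coboundary of a point of order two (its class in the 2-Selmer group is zero). -/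
def SelCob (f : (Sep K ≃ₐ[K] Sep K) → Pt W (Sep K)) : Prop :=
  ∃ T : Pt W (Sep K), (2 : ℕ) • T = 0 ∧ ∀ σ, f σ = act W (rs K σ) T - T

/-- The 2-Selmer group is zero. -/
def SelTwoZero : Prop := ∀ f, SelCoc K W f → SelCob K W f

/-- The 2-Selmer group has at most two elements: any two classes `x`, `y` have `x = 0`, `y = 0` or
`x + y = 0` (all classes are killed by two). -/
def SelTwoLe : Prop := ∀ f f', SelCoc K W f → SelCoc K W f' →
  SelCob K W f ∨ SelCob K W f' ∨ SelCob K W (fun σ => f σ + f' σ)

/-- The 2-primary part of the Tate-Shafarevich group is zero: every continuous cocycle whose class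
is killed by a power of two and which is a coboundary over all completions (at the finite places) is a
coboundary. -/
def ShaTwoZero : Prop :=
  ∀ f : (Sep K ≃ₐ[K] Sep K) → Pt W (Sep K), IsCoc W f → Locally K W f →
    (∃ (n : ℕ) (Q : Pt W (Sep K)), ∀ σ, 2 ^ n • f σ = act W (rs K σ) Q - Q) →
    ∃ Q : Pt W (Sep K), ∀ σ, f σ = act W (rs K σ) Q - Q

/-- The rank of the group of points over `K` is at most one. -/
def RankLeOne : Prop := Module.finrank ℤ (Pt W K) ≤ 1

end sha

/-- Trivial 2-Selmer group, trivial 2-primary part of the Tate-Shafarevich group, and no points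
except the point at infinity, over `K`. -/
structure Good (K : Type) [Field K] [NumberField K] (p : ℤ × ℤ) : Prop where
  sel : SelTwoZero K (curve K p)
  sha : ShaTwoZero K (curve K p)
  trivial : Subsingleton (Pt (curve K p) K)

/-- Every prime divisor `q` of `d` is in `T`, or `x ^ 3 + A x + B` has no zero modulo `q`. -/
def Admissible (T : Finset ℕ) (p : ℤ × ℤ) (d : ℤ) : Prop :=
  ∀ q : ℕ, q.Prime → (q : ℤ) ∣ d → q ∈ T ∨ ∀ z : ℤ, ¬ (q : ℤ) ∣ z ^ 3 + p.1 * z + p.2

/-- The integers `4 ^ k (4 m + 3)`. -/
def Excluded (e : ℤ) : Prop := ∃ (k : ℕ) (m : ℤ), e = 4 ^ k * (4 * m + 3)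

/-- The property of the curve `p` in the theorem: all the admissible twists at the same time. -/
structure AllTwists (K : Type) [Field K] [NumberField K] (T : Finset ℕ) (t : ℤ) (p : ℤ × ℤ) :
    Prop where
  good : ∀ d : ℤ, d ≠ 0 → Admissible T p d → ¬ Excluded (t * d) → Good K (twist p d)
  sel : ∀ d : ℤ, d ≠ 0 → Admissible T p d → SelTwoLe ℚ (curve ℚ (twist p d))
  rank : ∀ d : ℤ, d ≠ 0 → Admissible T p d → RankLeOne ℚ (curve ℚ (twist p d))

theorem crv_iff (X : ℕ) (p : ℤ × ℤ) : Pool.Agent.N922.PQ.Crv X p.1 p.2 ↔ p ∈ Curves X := by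
  constructor
  · rintro ⟨h1, h2, h3, h4⟩
    exact ⟨⟨h1, h2⟩, max_le h3 h4⟩
  · rintro ⟨⟨h1, h2⟩, h3⟩
    exact ⟨h1, h2, (le_max_left _ _).trans h3, (le_max_right _ _).trans h3⟩

theorem nonempty {X : ℕ} (hX : 27 ≤ X) : ((1, 1) : ℤ × ℤ) ∈ Curves X := by
  refine ⟨⟨by norm_num, ?_⟩, ?_⟩
  · rintro p hp ⟨h, -⟩
    have h1 : ((p : ℤ)) ∣ 1 := (dvd_pow_self (p : ℤ) (by norm_num)).trans h
    have h2 : p ∣ 1 := by exact_mod_cast h1
    exact hp.one_lt.ne' (Nat.dvd_one.1 h2)
  · have : height ((1, 1) : ℤ × ℤ) = 27 := by
      simp [height]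
    rw [this]
    exact_mod_cast hX

theorem excl_iff (e : ℤ) : Excluded e ↔ Run7.h23.Bd e := by
  constructor
  · rintro ⟨k, m, h⟩
    exact ⟨k, 4 * m + 3, h, by omega⟩
  · rintro ⟨k, e', h, h3⟩
    refine ⟨k, e' / 4, ?_⟩
    rw [h]
    congr 1
    omega

theorem adm_of {T : Finset ℕ} {p : ℤ × ℤ} {d : ℤ} (h : Admissible T p d) :
    Run7.h23.AdmC ((T.image fun q : ℕ => (q : ℤ)).filter fun P => Pool.Agent.N922.PQ.IsPr P)
      p.1 p.2 d := by
  intro P hP hd
  obtain ⟨q, rfl⟩ : ∃ q : ℕ, P = (q : ℤ) := ⟨P.toNat, (Int.toNat_of_nonneg hP.1.le).symm⟩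
  rcases h q (Nat.prime_iff_prime_int.2 hP.2) hd with h1 | h1
  · left
    rw [Finset.mem_filter]
    exact ⟨Finset.mem_image_of_mem _ h1, hP⟩
  · exact Or.inr h1

/-- For every Galois extension `K / ℚ` of degree `2 ^ n` in which `2` is unramified (that is,
no prime ideal `𝔭` of `K` has `2 ∈ 𝔭 ^ 2`), every finite set `T` of primes and every `t` in
`{1, -1, 2, -2}` there is `c > 0` such that for all large `X` at least `c` times the number of all elliptic
curves `E` over `ℚ` of height at most `X` have the following property: for every `d ≠ 0` such that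
each prime divisor `q` of `d` is in `T` or is a prime modulo which the cubic polynomial has no zero,
the twist `E ^ d` has trivial 2-Selmer group over `K`, trivial 2-primary part of `Ш(E ^ d / K)` and
`E ^ d (K) = 0` if `t d` is not of the form `4 ^ k (4 m + 3)`, and in any case the 2-Selmer group of `E ^ d`
over `ℚ` has at most two elements and the rank of `E ^ d (ℚ)` is at most one. -/
theorem result (K : Type) [Field K] [NumberField K] [IsGalois ℚ K] (n : ℕ)
    (hn : Module.finrank ℚ K = 2 ^ n)
    (h2 : ∀ 𝔭 : Ideal (𝓞 K), 𝔭.IsPrime → (2 : 𝓞 K) ∉ 𝔭 ^ 2)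
    (T : Finset ℕ) (t : ℤ) (ht : t = 1 ∨ t = -1 ∨ t = 2 ∨ t = -2) :
    (∀ X : ℕ, (Curves X).Finite) ∧
    ∃ c : ℝ, 0 < c ∧ ∀ᶠ X : ℕ in atTop,
      0 < (Curves X).ncard ∧
      c * ((Curves X).ncard : ℝ) ≤ (({p ∈ Curves X | AllTwists K T t p}).ncard : ℝ) := by
  have hset : ∀ X : ℕ, Curves X = {p : ℤ × ℤ | Pool.Agent.N922.PQ.Crv X p.1 p.2} := by
    intro X
    ext p
    exact (crv_iff X p).symm
  have hfin : ∀ X : ℕ, (Curves X).Finite := fun X => by
    rw [hset]
    exact Pool.Agent.N922.PQ.crv_fin X
  refine ⟨hfin, ?_⟩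
  obtain ⟨c, hc, X₀, h⟩ := Run7.h23.finalW K (𝓞 K) (𝓞 ℚ) hn
    (Pool.Agent.N922.PQ.val_two_of h2)
    ((T.image fun q : ℕ => (q : ℤ)).filter fun P => Pool.Agent.N922.PQ.IsPr P)
    (fun P hP => (Finset.mem_filter.1 hP).2) t ht
  refine ⟨c, hc, ?_⟩
  filter_upwards [eventually_ge_atTop (max X₀ 27)] with X hX
  refine ⟨(Set.ncard_pos (hfin X)).2 ⟨_, nonempty ((le_max_right _ _).trans hX)⟩, ?_⟩
  have h1 := (h X ((le_max_left _ _).trans hX)).2
  rw [← hset] at h1
  refine h1.trans ?_
  have h3 : {p : ℤ × ℤ | Pool.Agent.N922.PQ.Crv X p.1 p.2 ∧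
      Run7.h23.GoodW K (𝓞 K) (𝓞 ℚ)
        ((T.image fun q : ℕ => (q : ℤ)).filter fun P => Pool.Agent.N922.PQ.IsPr P) t p} ⊆
      {p ∈ Curves X | AllTwists K T t p} := by
    rintro p ⟨hp, hg⟩
    refine ⟨(crv_iff X p).1 hp, ⟨fun d hd hadm he => ?_, fun d hd hadm => ?_,
      fun d hd hadm => ?_⟩⟩
    · obtain ⟨hs, hd', hsha⟩ := (hg d hd (adm_of hadm)).1 (by rwa [← excl_iff])
      exact ⟨fun f hf => hs f hf.coc hf.two hf.loc, hsha, hd'⟩
    · intro f f' hf hf'
      obtain ⟨Q, hQ, hQ'⟩ := (hg d hd (adm_of hadm)).2.1 f f' hf.coc hf.two hf.loc hf'.coc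
        hf'.two hf'.loc
      rcases hQ' with h | h | h
      · exact Or.inl ⟨Q, hQ, h⟩
      · exact Or.inr (Or.inl ⟨Q, hQ, h⟩)
      · exact Or.inr (Or.inr ⟨Q, hQ, h⟩)
    · exact (hg d hd (adm_of hadm)).2.2
  have h4 := Set.ncard_le_ncard h3 ((hfin X).subset fun p hp => hp.1)
  exact_mod_cast h4

end Pool.Agent.Results.MP_e23604_nt.SimultaneousTwists
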